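import Pool.Agent.W830.RD.Stm

/-!
Part RD-INS: no insertion at the bottom or at the top.
-/

set_option autoImplicit false

namespace Pool.Agent.W685.RD.Ins

open Finset Pool.Agent.W830.RD
open scoped Classical

theorem key {α : Type} [Fintype α] [PartialOrder α] {F : Finset (Finset α)} (hB : Best F)
    {C0 : Finset α} (hC0 : C0 ∈ F) {C : Finset α} (hC : C ∈ F) (hne : C ≠ C0)
    (hle : C0.card ≤ C.card) {x : α} (hx : x ∈ C0) (hc : ∀ u ∈ C, x ≤ u ∨ u ≤ x) : False := by
  have hdj : Disjoint C C0 := hB.pt.dj C hC C0 hC0 hne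
  have hxC : x ∉ C := fun h => Finset.disjoint_left.1 hdj h hx
  have hCne : C.Nonempty := hB.pt.ne C hC
  obtain ⟨D, hD⟩ : ∃ D, D = insert x C := ⟨_, rfl⟩
  obtain ⟨E, hE⟩ : ∃ E, E = C0.erase x := ⟨_, rfl⟩
  obtain ⟨F1, hF1⟩ : ∃ F1, F1 = (F.erase C0).erase C := ⟨_, rfl⟩
  have hm1 : ∀ A, A ∈ F1 ↔ A ≠ C ∧ A ≠ C0 ∧ A ∈ F := by
    intro A
    rw [hF1, Finset.mem_erase, Finset.mem_erase]
  have hsum : sqs F = C.card ^ 2 + C0.card ^ 2 + sqs F1 := by
    unfold sqs
    rw [hF1, ← Finset.add_sum_erase F (fun C => C.card ^ 2) hC0,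
      ← Finset.add_sum_erase (F.erase C0) (fun C => C.card ^ 2)
        (Finset.mem_erase.2 ⟨hne, hC⟩)]
    ring
  have hDC : D.card = C.card + 1 := by rw [hD, Finset.card_insert_of_notMem hxC]
  have hEC : E.card + 1 = C0.card := by rw [hE, Finset.card_erase_add_one hx]
  have hDch : Chn D := by
    intro a ha b hb
    rw [hD, Finset.mem_insert] at ha hb
    rcases ha with rfl | ha <;> rcases hb with rfl | hb
    · exact Or.inl le_rfl
    · exact hc b hb
    · exact (hc a ha).symm
    · exact hB.pt.ch C hC a ha b hb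
  have hEch : Chn E := by
    intro a ha b hb
    rw [hE] at ha hb
    exact hB.pt.ch C0 hC0 a (Finset.mem_of_mem_erase ha) b (Finset.mem_of_mem_erase hb)
  have hDj1 : ∀ A ∈ F1, Disjoint D A := by
    intro A hA
    obtain ⟨h1, h2, h3⟩ := (hm1 A).1 hA
    rw [hD, Finset.disjoint_insert_left]
    exact ⟨fun h => Finset.disjoint_left.1 (hB.pt.dj A h3 C0 hC0 h2) h hx,
      hB.pt.dj C hC A h3 (Ne.symm h1)⟩
  have hEj1 : ∀ A ∈ F1, Disjoint E A := by
    intro A hA
    obtain ⟨h1, h2, h3⟩ := (hm1 A).1 hA
    rw [hE]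
    exact Disjoint.mono_left (Finset.erase_subset _ _) (hB.pt.dj C0 hC0 A h3 (Ne.symm h2))
  have hDE : Disjoint D E := by
    rw [hD, hE, Finset.disjoint_insert_left]
    exact ⟨Finset.notMem_erase x C0, Disjoint.mono_right (Finset.erase_subset _ _) hdj⟩
  have hDne : D.Nonempty := by rw [hD]; exact Finset.insert_nonempty _ _
  have hDF : D ∉ F1 := fun h => by
    obtain ⟨a, ha⟩ := hDne
    exact Finset.disjoint_left.1 (hDj1 D h) ha ha
  have hunion : ∀ a : α, a ∈ D ∨ a ∈ E ∨ ∃ A ∈ F1, a ∈ A := by
    intro a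
    have ha : a ∈ F.biUnion id := by rw [hB.pt.un]; exact Finset.mem_univ _
    obtain ⟨A, hA, haA⟩ := Finset.mem_biUnion.1 ha
    by_cases h1 : A = C
    · left
      rw [hD, Finset.mem_insert]
      right
      rw [← h1]
      exact haA
    · by_cases h2 : A = C0
      · by_cases h3 : a = x
        · left
          rw [hD, h3]
          exact Finset.mem_insert_self _ _
        · right
          left
          rw [hE, Finset.mem_erase, ← h2]
          exact ⟨h3, haA⟩
      · right
        right
        exact ⟨A, (hm1 A).2 ⟨h1, h2, hA⟩, haA⟩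
  have hpos : C.card ^ 2 + C0.card ^ 2 < D.card ^ 2 + E.card ^ 2 := by
    rw [hDC, ← hEC]
    rw [← hEC] at hle
    nlinarith
  by_cases hEne : E.Nonempty
  · have hEF : E ∉ F1 := fun h => by
      obtain ⟨a, ha⟩ := hEne
      exact Finset.disjoint_left.1 (hEj1 E h) ha ha
    have hDEne : D ≠ E := fun h => by
      obtain ⟨a, ha⟩ := hDne
      exact Finset.disjoint_left.1 hDE ha (h ▸ ha)
    have hD2 : D ∉ insert E F1 := by
      rw [Finset.mem_insert]
      rintro (h | h)
      · exact hDEne h
      · exact hDF h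
    have hP : Part (insert D (insert E F1)) (Finset.univ : Finset α) := by
      refine ⟨?_, ?_, ?_, ?_⟩
      · intro A hA
        rw [Finset.mem_insert, Finset.mem_insert] at hA
        rcases hA with rfl | rfl | hA
        · exact hDch
        · exact hEch
        · exact hB.pt.ch A ((hm1 A).1 hA).2.2
      · intro A hA
        rw [Finset.mem_insert, Finset.mem_insert] at hA
        rcases hA with rfl | rfl | hA
        · exact hDne
        · exact hEne
        · exact hB.pt.ne A ((hm1 A).1 hA).2.2
      · intro A hA A' hA' hAA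
        rw [Finset.mem_insert, Finset.mem_insert] at hA hA'
        rcases hA with rfl | rfl | hA <;> rcases hA' with rfl | rfl | hA'
        · exact absurd rfl hAA
        · exact hDE
        · exact hDj1 A' hA'
        · exact hDE.symm
        · exact absurd rfl hAA
        · exact hEj1 A' hA'
        · exact (hDj1 A hA).symm
        · exact (hEj1 A hA).symm
        · exact hB.pt.dj A ((hm1 A).1 hA).2.2 A' ((hm1 A').1 hA').2.2 hAA
      · ext a
        simp only [Finset.mem_univ, iff_true]
        rw [Finset.mem_biUnion]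
        rcases hunion a with h | h | ⟨A, hA, h⟩
        · exact ⟨D, Finset.mem_insert_self _ _, h⟩
        · exact ⟨E, Finset.mem_insert_of_mem (Finset.mem_insert_self _ _), h⟩
        · exact ⟨A, Finset.mem_insert_of_mem (Finset.mem_insert_of_mem hA), h⟩
    have h := hB.mx _ hP
    have h2 : sqs (insert D (insert E F1)) = D.card ^ 2 + (E.card ^ 2 + sqs F1) := by
      unfold sqs
      rw [Finset.sum_insert hD2, Finset.sum_insert hEF]
    omega
  · have hE0 : E = ∅ := Finset.not_nonempty_iff_eq_empty.1 hEne
    have hP : Part (insert D F1) (Finset.univ : Finset α) := by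
      refine ⟨?_, ?_, ?_, ?_⟩
      · intro A hA
        rw [Finset.mem_insert] at hA
        rcases hA with rfl | hA
        · exact hDch
        · exact hB.pt.ch A ((hm1 A).1 hA).2.2
      · intro A hA
        rw [Finset.mem_insert] at hA
        rcases hA with rfl | hA
        · exact hDne
        · exact hB.pt.ne A ((hm1 A).1 hA).2.2
      · intro A hA A' hA' hAA
        rw [Finset.mem_insert] at hA hA'
        rcases hA with rfl | hA <;> rcases hA' with rfl | hA'
        · exact absurd rfl hAA
        · exact hDj1 A' hA'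
        · exact (hDj1 A hA).symm
        · exact hB.pt.dj A ((hm1 A).1 hA).2.2 A' ((hm1 A').1 hA').2.2 hAA
      · ext a
        simp only [Finset.mem_univ, iff_true]
        rw [Finset.mem_biUnion]
        rcases hunion a with h | h | ⟨A, hA, h⟩
        · exact ⟨D, Finset.mem_insert_self _ _, h⟩
        · rw [hE0] at h
          exact absurd h (Finset.notMem_empty a)
        · exact ⟨A, Finset.mem_insert_of_mem hA, h⟩
    have h := hB.mx _ hP
    have h2 : sqs (insert D F1) = D.card ^ 2 + sqs F1 := by
      unfold sqs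
      rw [Finset.sum_insert hDF]
    have h3 : E.card = 0 := by rw [hE0, Finset.card_empty]
    rw [h3] at hpos
    omega

theorem main : S_INS := by
  intro α _ _ F hB C0 hC0 C hC hne hle x hx
  exact ⟨fun h => key hB hC0 hC hne hle hx fun u hu => Or.inl (h u hu).le,
    fun h => key hB hC0 hC hne hle hx fun u hu => Or.inr (h u hu).le⟩

end Pool.Agent.W685.RD.Ins
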